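import Mathlib
import Pool.Agent.H23.TNF
import Pool.Agent.H23.SPair

set_option autoImplicit false

namespace Pool.Agent.Results.MP_4c1ea5_lc.ConeComplement

open Pool.Agent.H23 Pool.Agent.H23.RE Pool.Agent.H23.TNF Filter Topology
open Classical

/-- The characteristic function of a set. -/
noncomputable def chi (A : Set ℕ) : ℕ → ℕ := fun n => if n ∈ A then 1 else 0

/-- `|X ∩ [0,n)|`. -/
noncomputable def cnt (X : Set ℕ) (n : ℕ) : ℕ := ((Finset.range n).filter (· ∈ X)).card

/-- Upper density. -/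
noncomputable def udens (X : Set ℕ) : ℝ := limsup (fun n : ℕ => (cnt X n : ℝ) / n) atTop

/-- Coarse similarity: the symmetric difference has asymptotic density `0`. -/
def Sim (A B : Set ℕ) : Prop := Tendsto (fun n : ℕ => (cnt (symmDiff A B) n : ℝ) / n) atTop (𝓝 0)

noncomputable def err (A B : Set ℕ) (n : ℕ) : ℕ := cnt (symmDiff A B) n

theorem err_succ (A B : Set ℕ) (n : ℕ) :
    err A B (n + 1) = err A B n + if (n ∈ A ↔ n ∈ B) then 0 else 1 := by
  unfold err cnt
  rw [Finset.range_add_one, Finset.filter_insert]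
  by_cases h1 : n ∈ A <;> by_cases h2 : n ∈ B <;> simp [Set.mem_symmDiff, h1, h2]

theorem err_zero (A B : Set ℕ) : err A B 0 = 0 := by simp [err, cnt]

theorem err_le (A B : Set ℕ) (n : ℕ) : err A B n ≤ n := by
  induction n with
  | zero => simp [err_zero]
  | succ n ih => rw [err_succ]; split_ifs <;> omega

theorem err_comm (A B : Set ℕ) (n : ℕ) : err A B n = err B A n := by
  unfold err; rw [symmDiff_comm]

theorem err_tri (A B C : Set ℕ) (n : ℕ) : err A C n ≤ err A B n + err B C n := by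
  induction n with
  | zero => simp [err_zero]
  | succ n ih =>
    simp only [err_succ]
    by_cases h1 : n ∈ A <;> by_cases h2 : n ∈ B <;> by_cases h3 : n ∈ C <;>
      simp [h1, h2, h3] <;> omega

theorem err_congr {A A' : Set ℕ} (B : Set ℕ) {n : ℕ} (h : ∀ i < n, i ∈ A ↔ i ∈ A') :
    err A B n = err A' B n := by
  induction n with
  | zero => simp [err_zero]
  | succ n ih => rw [err_succ, err_succ, ih fun i hi => h i (by omega), h n (by omega)]

def glue (D : Set ℕ) (m : ℕ) (A : Set ℕ) : Set ℕ := {i | (i < m ∧ i ∈ D) ∨ (m ≤ i ∧ i ∈ A)}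

theorem glue_lt {D A : Set ℕ} {m i : ℕ} (h : i < m) : i ∈ glue D m A ↔ i ∈ D := by
  simp [glue, h, not_le.2 h]

theorem glue_ge {D A : Set ℕ} {m i : ℕ} (h : m ≤ i) : i ∈ glue D m A ↔ i ∈ A := by
  simp [glue, h, not_lt.2 h]

theorem err_glue (D A C : Set ℕ) {m n : ℕ} (h : m ≤ n) :
    err (glue D m A) C n ≤ err D C m + err A C n := by
  induction n, h using Nat.le_induction with
  | base => rw [err_congr C fun i hi => glue_lt hi]; omega
  | succ n h ih => rw [err_succ, err_succ, glue_ge h]; omega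

theorem err_self (A : Set ℕ) (n : ℕ) : err A A n = 0 := by simp [err, cnt]

theorem pre_congr {A B : Set ℕ} {n : ℕ} (h : ∀ i < n, i ∈ A ↔ i ∈ B) :
    pre (chi A) n = pre (chi B) n := by
  unfold pre
  exact List.map_congr_left fun i hi => by simp [chi, h i (List.mem_range.1 hi)]

theorem err_list (A B : Set ℕ) (τ σ : List ℕ) (j : ℕ) (h1 : ∀ i < j, τ.getD i 0 = chi A i)
    (h2 : ∀ i < j, σ.getD i 0 = chi B i) :
    ((List.range j).filter fun i => !(τ.getD i 0 == σ.getD i 0)).length = err A B j := by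
  induction j with
  | zero => simp [err_zero]
  | succ j ih =>
    rw [List.range_succ, List.filter_append, List.length_append,
      ih (fun i hi => h1 i (by omega)) (fun i hi => h2 i (by omega)), err_succ,
      List.filter_singleton, h1 j (by omega), h2 j (by omega)]
    by_cases a : j ∈ A <;> by_cases b : j ∈ B <;> simp [chi, a, b]

section
variable (A : ℕ → Set ℕ)

structure Cond where
  D : Set ℕ
  m : ℕ
  k : ℕ
  h : 2 ^ k * err D (A k) m ≤ 8 * m

variable {A}

def Mem (p : Cond A) (E : Set ℕ) : Prop :=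
  (∀ i < p.m, i ∈ E ↔ i ∈ p.D) ∧ ∀ n, p.m ≤ n → 2 ^ p.k * err E (A p.k) n ≤ 8 * n

def Le (p q : Cond A) : Prop := p.m ≤ q.m ∧ p.k ≤ q.k ∧ ∀ E, Mem q E → Mem p E

theorem mem_glue (p : Cond A) : Mem p (glue p.D p.m (A p.k)) := by
  refine ⟨fun i hi => glue_lt hi, fun n hn => ?_⟩
  have h1 := err_glue p.D (A p.k) (A p.k) hn
  rw [err_self, add_zero] at h1
  exact (Nat.mul_le_mul_left _ h1).trans (p.h.trans (by omega))

theorem le_ext (p : Cond A) {E : Set ℕ} (h : Mem p E) {n : ℕ} (hn : p.m ≤ n) :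
    Le p ⟨E, n, p.k, h.2 n hn⟩ := by
  refine ⟨hn, le_rfl, fun F hF => ⟨fun i hi => (hF.1 i (lt_of_lt_of_le hi hn)).trans (h.1 i hi),
    fun j hj => ?_⟩⟩
  rcases le_total n j with h1 | h1
  · exact hF.2 j h1
  · rw [err_congr _ fun i hi => hF.1 i (lt_of_lt_of_le hi h1)]
    exact h.2 j hj

theorem step {B : Set ℕ} (hA : ∀ k, ∃ N, ∀ n, N ≤ n → 2 ^ k * err (A k) B n ≤ n) (p : Cond A) :
    ∃ q, Le p q ∧ p.m < q.m ∧ p.k < q.k := by
  obtain ⟨N, hN⟩ := hA p.k
  obtain ⟨N', hN'⟩ := hA (p.k + 1)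
  obtain ⟨L, hL⟩ : ∃ L, L = 8 * p.m + N + N' + 1 := ⟨_, rfl⟩
  have hp : 0 < 2 ^ p.k := by positivity
  have h0 := mem_glue p
  have h1 : 2 ^ p.k * err (glue p.D p.m (A p.k)) (A p.k) L ≤ L := by
    have := err_glue p.D (A p.k) (A p.k) (show p.m ≤ L by omega)
    rw [err_self, add_zero] at this
    exact (Nat.mul_le_mul_left _ this).trans (p.h.trans (by omega))
  generalize glue p.D p.m (A p.k) = E0 at h0 h1
  have h2 : L ≤ 2 ^ (p.k + 1) * L := Nat.le_mul_of_pos_left _ (by positivity)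
  have h3 : ∀ n, L ≤ n → 2 * (2 ^ p.k * err (A (p.k + 1)) (A p.k) n) ≤ 3 * n := by
    intro n hn
    have a := hN n (by omega)
    have b := hN' n (by omega)
    have c := Nat.mul_le_mul_left (2 ^ p.k) (err_tri (A (p.k + 1)) B (A p.k) n)
    rw [err_comm B, mul_add] at c
    rw [pow_succ, mul_comm _ 2, mul_assoc] at b
    omega
  refine ⟨⟨glue E0 L (A (p.k + 1)), 2 ^ (p.k + 1) * L, p.k + 1, ?_⟩, ⟨by simp only; omega,
    by simp, fun E hE => ⟨fun i hi => ?_, fun n hn => ?_⟩⟩, by simp only; omega, by simp⟩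
  · have a := err_glue E0 (A (p.k + 1)) (A (p.k + 1)) h2
    rw [err_self, add_zero] at a
    have := Nat.mul_le_mul_left (2 ^ (p.k + 1)) (a.trans (err_le _ _ _))
    omega
  · exact (hE.1 i (by simp only; omega)).trans ((glue_lt (by omega)).trans (h0.1 i hi))
  · have hE1 := hE.1
    have hE2 := hE.2
    simp only at hE1 hE2
    rcases le_total n L with a | a
    · rw [err_congr (A' := E0) _ fun i hi => (hE1 i (by omega)).trans (glue_lt (by omega))]
      exact h0.2 n hn
    have b := h3 n a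
    rcases le_total n (2 ^ (p.k + 1) * L) with c | c
    · rw [err_congr _ fun i hi => hE1 i (by omega)]
      have d := Nat.mul_le_mul_left (2 ^ p.k) (err_glue E0 (A (p.k + 1)) (A p.k) a)
      rw [mul_add] at d
      omega
    · have d := hE2 n c
      have e := Nat.mul_le_mul_left (2 ^ p.k) (err_tri E (A (p.k + 1)) (A p.k) n)
      rw [mul_add] at e
      rw [pow_succ, mul_comm _ 2, mul_assoc] at d
      omega

theorem le_trans' (p q r : Cond A) (h1 : Le p q) (h2 : Le q r) : Le p r :=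
  ⟨h1.1.trans h2.1, h1.2.1.trans h2.2.1, fun E h => h1.2.2 E (h2.2.2 E h)⟩

theorem avoid {X : Set ℕ} (hX : ∀ k, ¬ TuringReducible (chi X) (chi (A k))) (c : OCode)
    (p : Cond A) : ∃ q, Le p q ∧ ∀ E, Mem q E → OCode.eval c (chi E) ≠ chi X := by
  by_cases ha : ∃ E, Mem p E ∧ ∃ x v, v ∈ OCode.eval c (chi E) x ∧ v ≠ chi X x
  · obtain ⟨E, h1, x, v, h2, h3⟩ := ha
    obtain ⟨m, hm⟩ := exists_pre c _ h2
    refine ⟨_, le_ext p h1 (le_max_left p.m m), fun F hF e => h3 ?_⟩
    have := hm _ (le_max_right p.m m)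
    rw [← pre_congr hF.1] at this
    simpa [e] using eval_of_pre c _ _ this
  by_cases hb : ∃ x, ∀ E, Mem p E → ∀ v, v ∉ OCode.eval c (chi E) x
  · obtain ⟨x, hx⟩ := hb
    exact ⟨p, ⟨le_rfl, le_rfl, fun _ h => h⟩, fun E hE e => hx E hE (chi X x) (by simp [e])⟩
  push Not at ha hb
  refine absurd (tr_of_re _ _ (fun x v σ => ∃ τ : List ℕ, (τ.length == σ.length) = true ∧
    Nat.ble p.m σ.length = true ∧ (τ.all fun b => Nat.ble b 1) = true ∧
    (τ.take p.m == pre (chi p.D) p.m) = true ∧ ((List.range (σ.length + 1)).all fun j =>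
      Nat.blt j p.m || Nat.ble (2 ^ p.k * ((List.range j).filter
        fun i => !(τ.getD i 0 == σ.getD i 0)).length) (8 * j)) = true ∧
    v ∈ OCode.eval c (lst τ) x) ?_ (fun x => ?_) ?_) (hX p.k)
  · apply re_ex
    repeat' first
      | exact re_prim (by fun_prop)
      | apply re_and
    exact re_comp' (re_eval c) (fun q : (ℕ × ℕ × List ℕ) × List ℕ => ((q.2, q.1.1), q.1.2.1))
      (by fun_prop)
  · obtain ⟨E, h1, v, h2⟩ := hb x
    obtain rfl := ha E h1 x v h2
    obtain ⟨m, hm⟩ := exists_pre c _ h2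
    refine ⟨max p.m m, pre (chi E) (max p.m m), by simp, by simp, ?_, ?_, ?_,
      hm _ (le_max_right _ _)⟩
    · simp only [pre, List.all_map, List.all_eq_true, Function.comp, Nat.ble_eq, chi]
      intro i _
      split_ifs <;> omega
    · rw [← pre_congr h1.1]
      simp [pre, ← List.map_take, List.take_range]
    · simp only [pre_length, List.all_eq_true, List.mem_range, Bool.or_eq_true, Nat.blt_eq,
        Nat.ble_eq]
      intro j hj
      rw [err_list E (A p.k) _ _ j (fun i hi => pre_getD _ (by omega) _)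
        (fun i hi => pre_getD _ (by omega) _)]
      exact (lt_or_ge j p.m).imp id (h1.2 j)
  · rintro x v n ⟨τ, h1, h2, h3, h4, h5, h6⟩
    simp only [pre_length, List.all_eq_true, List.mem_range, Bool.or_eq_true, Nat.blt_eq,
      Nat.ble_eq, beq_iff_eq] at h1 h2 h3 h4 h5
    let D : Set ℕ := {i | τ.getD i 0 = 1}
    have hD : ∀ i, τ.getD i 0 = chi D i := by
      intro i
      have : τ.getD i 0 ≤ 1 := by
        rw [List.getD_eq_getElem?_getD]
        cases h : τ[i]? with
        | none => simp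
        | some b => exact h3 b (List.mem_of_getElem? h)
      simp only [chi, D, Set.mem_ofPred_eq]
      split_ifs <;> omega
    have hj : ∀ j, p.m ≤ j → j ≤ n → 2 ^ p.k * err D (A p.k) j ≤ 8 * j := by
      intro j a b
      rw [← err_list D (A p.k) τ (pre (chi (A p.k)) n) j (fun i _ => hD i)
        (fun i hi => pre_getD _ (by omega) _)]
      exact (h5 j (by omega)).resolve_left (by omega)
    have hτ : τ = pre (chi D) τ.length := by
      refine List.ext_getElem (by simp) fun i a b => ?_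
      simp [pre, ← hD, a]
    have hm : Mem p (glue D n (A p.k)) := by
      refine ⟨fun i hi => (glue_lt (by omega)).trans ?_, fun j a => ?_⟩
      · have := pre_getD (chi p.D) hi 0
        rw [← h4, List.getD_eq_getElem?_getD, List.getElem?_take_of_lt hi,
          ← List.getD_eq_getElem?_getD, hD] at this
        by_cases a : i ∈ D <;> by_cases b : i ∈ p.D <;> simp [chi, a, b] at this ⊢
      · rcases le_total j n with b | b
        · rw [err_congr _ fun i hi => glue_lt (by omega)]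
          exact hj j a b
        · exact (mem_glue ⟨D, n, p.k, hj n h2 le_rfl⟩).2 j b
    refine ha _ hm x v (eval_of_lst c _ τ ?_ h6)
    rw [h1] at hτ ⊢
    rw [hτ]
    exact pre_congr fun i hi => (glue_lt hi).symm

theorem limit {B X : Set ℕ} (hA : ∀ k, ∃ N, ∀ n, N ≤ n → 2 ^ k * err (A k) B n ≤ n)
    (hX : ∀ k, ¬ TuringReducible (chi X) (chi (A k))) :
    ∃ E, ¬ TuringReducible (chi X) (chi E) ∧ ∀ k, ∃ N, ∀ n, N ≤ n → 2 ^ k * err E B n ≤ 9 * n := by
  obtain ⟨c, hc, hD⟩ := SPair.generic (ι := ℕ ⊕ OCode) Le (fun p => ⟨le_rfl, le_rfl, fun _ h => h⟩)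
    le_trans' (⟨∅, 0, 0, by simp [err_zero]⟩ : Cond A)
    (fun i q => i.elim (fun j => j ≤ q.m ∧ j ≤ q.k)
      fun c => ∀ E, Mem q E → OCode.eval c (chi E) ≠ chi X) (by
      rintro (j | c) p
      · induction j with
        | zero => exact ⟨p, ⟨le_rfl, le_rfl, fun _ h => h⟩, by simp⟩
        | succ j ih =>
          obtain ⟨q, h1, h2, h3⟩ := ih
          obtain ⟨r, h4, h5, h6⟩ := step hA q
          exact ⟨r, le_trans' _ _ _ h1 h4, by omega, by omega⟩
      · exact avoid hX c p)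
  let E : Set ℕ := {i | ∃ n, i < (c n).m ∧ i ∈ (c n).D}
  have h1 : ∀ m n, m ≤ n → ∀ i < (c m).m, i ∈ (c n).D ↔ i ∈ (c m).D := fun m n h i hi =>
    ((mem_glue (c n)).1 i (lt_of_lt_of_le hi (hc m n h).1)).symm.trans
      (((hc m n h).2.2 _ (mem_glue _)).1 i hi)
  have h2 : ∀ n, ∀ i < (c n).m, i ∈ E ↔ i ∈ (c n).D := fun n i hi =>
    ⟨fun ⟨m, a, b⟩ => (h1 n _ (le_max_left n m) i hi).1 ((h1 m _ (le_max_right n m) i a).2 b),
      fun h => ⟨n, hi, h⟩⟩
  have h3 : ∀ n, Mem (c n) E := by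
    refine fun n => ⟨h2 n, fun j hj => ?_⟩
    obtain ⟨m, a, _⟩ := hD (.inl j)
    have b := (hc m _ (le_max_right n m)).1
    rw [err_congr (A' := glue _ _ _) _ fun i hi => (h2 (max n m) i (by omega)).trans
      ((mem_glue (c (max n m))).1 i (by omega)).symm]
    exact ((hc n _ (le_max_left n m)).2.2 _ (mem_glue _)).2 j hj
  refine ⟨E, fun h => ?_, fun k => ?_⟩
  · obtain ⟨e, he⟩ := OCode.exists_code h
    obtain ⟨n, hn⟩ := hD (.inr e)
    exact hn E (h3 n) he
  · obtain ⟨n, _, hn⟩ := hD (.inl k)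
    obtain ⟨N, hN⟩ := hA (c n).k
    refine ⟨max N (c n).m, fun j hj => ?_⟩
    have a := hN j (by omega)
    have b := (h3 n).2 j (by omega)
    have d := Nat.mul_le_mul (Nat.pow_le_pow_right (show 0 < 2 by omega) hn)
      (err_tri E (A (c n).k) B j)
    rw [mul_add] at d
    omega

end

theorem vote (A X : Set ℕ) (x j : ℕ) (hj : j ≤ 2 ^ x) (σ : List ℕ)
    (hσ : ∀ i < 2 ^ (x + 1), σ.getD i 0 = chi A i) :
    (x ∈ X → j ≤ ((List.range j).filter fun i => σ.getD (2 ^ x + i) 0 == 1).length +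
      err A {i | Nat.log 2 i ∈ X} (2 ^ x + j)) ∧
    (x ∉ X → ((List.range j).filter fun i => σ.getD (2 ^ x + i) 0 == 1).length ≤
      err A {i | Nat.log 2 i ∈ X} (2 ^ x + j)) := by
  induction j with
  | zero => simp
  | succ j ih =>
    have h1 : Nat.log 2 (2 ^ x + j) = x := Nat.log_eq_of_pow_le_of_lt_pow (by omega) (by omega)
    have := ih (by omega)
    rw [List.range_succ, List.filter_append, List.length_append, ← add_assoc, err_succ,
      List.filter_singleton, hσ _ (by omega), Set.mem_ofPred_eq, h1]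
    by_cases a : 2 ^ x + j ∈ A <;> by_cases b : x ∈ X <;> simp [chi, a, b] at this ⊢ <;> omega

theorem blt_t {a b : ℕ} (h : a < b) : Nat.blt a b = true := by simpa using h
theorem blt_f {a b : ℕ} (h : b ≤ a) : Nat.blt a b = false :=
  Bool.eq_false_iff.2 fun h' => absurd (by simpa using h' : a < b) (not_lt.2 h)

theorem decode (A X : Set ℕ) (h : Sim A {i | Nat.log 2 i ∈ X}) :
    TuringReducible (chi X) (chi A) := by
  obtain ⟨N, hN⟩ := eventually_atTop.1 (h.eventually (gt_mem_nhds (show (0 : ℝ) < 1 / 4 by norm_num)))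
  have key : ∀ x, N ≤ x → chi X x = bif Nat.blt (2 ^ x) (2 * ((List.range (2 ^ x)).filter
      fun i => (pre (chi A) (2 ^ (x + 1))).getD (2 ^ x + i) 0 == 1).length) then 1 else 0 := by
    intro x hx
    have h1 := vote A X x _ le_rfl _ fun i hi => pre_getD (chi A) hi 0
    have h2 := hN (2 ^ (x + 1)) (by have := @Nat.lt_two_pow_self (x + 1); omega)
    rw [div_lt_div_iff₀ (by positivity) (by norm_num)] at h2
    have h3 : err A {i | Nat.log 2 i ∈ X} (2 ^ (x + 1)) * 4 < 1 * 2 ^ (x + 1) := by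
      exact_mod_cast h2
    rw [show 2 ^ x + 2 ^ x = 2 ^ (x + 1) by omega] at h1
    by_cases a : x ∈ X
    · have := h1.1 a
      rw [blt_t (by omega)]
      simp [chi, a]
    · have := h1.2 a
      rw [blt_f (by omega)]
      simp [chi, a]
  refine tr_of_re _ _ (fun x v σ => (bif Nat.blt x N then v == (pre (chi X) N).getD x 0 else
    σ.length == 2 ^ (x + 1) && v == bif Nat.blt (2 ^ x) (2 * ((List.range (2 ^ x)).filter
      fun i => σ.getD (2 ^ x + i) 0 == 1).length) then 1 else 0) = true)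
    (re_prim (by fun_prop)) (fun x => ⟨2 ^ (x + 1), ?_⟩) fun x v n h => ?_
  · rcases lt_or_ge x N with a | a
    · rw [blt_t a, pre_getD _ a]; simp
    · rw [blt_f a, ← key x a]; simp
  · rcases lt_or_ge x N with a | a
    · rw [blt_t a, pre_getD _ a] at h; simpa using h
    · rw [blt_f a] at h
      simp only [cond_false, pre_length, Bool.and_eq_true, beq_iff_eq] at h
      rw [key x a, h.2, h.1]

theorem exists_nc : ∃ X : Set ℕ, ¬ TuringReducible (chi X) (chi ∅) := by
  by_contra h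
  push Not at h
  choose c hc using fun X => OCode.exists_code (h X)
  have : Function.Injective c := by
    intro X Y e
    have h1 := hc X
    rw [e, hc Y] at h1
    ext n
    have := congrFun h1 n
    by_cases a : n ∈ X <;> by_cases b : n ∈ Y <;> simp_all [chi]
  have := this.countable
  obtain ⟨f, hf⟩ := exists_surjective_nat (Set ℕ)
  exact Function.cantor_surjective f hf

theorem result : ∃ U : Set (Set ℕ),
    (∀ A ∈ U, ∀ B, TuringEquivalent (chi B) (chi A) → B ∈ U) ∧ U.Nonempty ∧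
    (∃ B, ∀ A ∈ U, ¬ Sim A B) ∧
    ∀ B, (∀ ε > 0, ∃ A ∈ U, udens (symmDiff A B) < ε) → ∃ A ∈ U, Sim A B := by
  obtain ⟨X, hX⟩ := exists_nc
  refine ⟨{A | ¬ TuringReducible (chi X) (chi A)}, fun A hA B h h' => hA (h'.trans h.1), ⟨∅, hX⟩,
    ⟨_, fun A hA h => hA (decode A X h)⟩, fun B hB => ?_⟩
  choose A h1 h2 using fun k : ℕ => hB (1 / 2 ^ k) (by positivity)
  have hA : ∀ k, ∃ N, ∀ n, N ≤ n → 2 ^ k * err (A k) B n ≤ n := fun k => ?_
  · obtain ⟨E, h3, h4⟩ := limit hA h1
    refine ⟨E, h3, Metric.tendsto_atTop.2 fun ε hε => ?_⟩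
    obtain ⟨k, hk⟩ := pow_unbounded_of_one_lt (9 / ε) (show (1 : ℝ) < 2 by norm_num)
    obtain ⟨N, hN⟩ := h4 k
    refine ⟨N + 1, fun n hn => ?_⟩
    have a : (2 : ℝ) ^ k * cnt (symmDiff E B) n ≤ 9 * n := by exact_mod_cast hN n (by omega)
    have b : (0 : ℝ) < n := by exact_mod_cast (show 0 < n by omega)
    rw [Real.dist_eq, sub_zero, abs_of_nonneg (by positivity), div_lt_iff₀ b]
    rw [div_lt_iff₀ hε] at hk
    have c : (0 : ℝ) < 2 ^ k := by positivity
    nlinarith
  · have := eventually_lt_of_limsup_lt (h2 k) (isBoundedUnder_of ⟨1, fun n =>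
      div_le_one_of_le₀ (by exact_mod_cast err_le _ _ n) (by positivity)⟩)
    obtain ⟨N, hN⟩ := eventually_atTop.1 this
    refine ⟨N + 1, fun n hn => ?_⟩
    have a := hN n (by omega)
    rw [div_lt_div_iff₀ (by exact_mod_cast (show 0 < n by omega)) (by positivity)] at a
    have b : cnt (symmDiff (A k) B) n * 2 ^ k < 1 * n := by exact_mod_cast a
    unfold err
    rw [mul_comm]
    omega

end Pool.Agent.Results.MP_4c1ea5_lc.ConeComplement
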